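import Mathlib
import Pool.Graph.R_seed8.W781.LW.Main

/-!
The Lu-Wenzel commutator inequality for admissible families of COMPLEX matrices.
Adapted from the real case of the library (`R_seed8.W250.LW.DDVV`).
-/

set_option autoImplicit false

open Matrix

namespace Pool.Agent.LW5A

open Pool.Agent.W781.LW

variable {n m : ℕ}

/-- unitary mixing of a family -/
noncomputable def rot (O : Matrix (Fin m) (Fin m) ℂ) (B : Fin m → Matrix (Fin n) (Fin n) ℂ)
    (a : Fin m) : Matrix (Fin n) (Fin n) ℂ := ∑ b, O a b • B b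

lemma vec_rot (O : Matrix (Fin m) (Fin m) ℂ) (hO : Oᴴ * O = 1) (v : Fin m → ℂ) :
    ∑ a, ‖∑ b, O a b * v b‖ ^ 2 = ∑ a, ‖v a‖ ^ 2 := by
  have h2 : star (O *ᵥ v) ⬝ᵥ (O *ᵥ v) = star v ⬝ᵥ v := by
    rw [Matrix.star_mulVec, Matrix.dotProduct_mulVec, Matrix.vecMul_vecMul, hO, Matrix.vecMul_one]
  have h3 : star (O *ᵥ v) ⬝ᵥ (O *ᵥ v) = ((∑ a, ‖∑ b, O a b * v b‖ ^ 2 : ℝ) : ℂ) := by
    simp only [dotProduct, mulVec, Pi.star_apply]
    push_cast
    refine Finset.sum_congr rfl fun a _ => ?_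
    exact Complex.conj_mul' _
  have h4 : star v ⬝ᵥ v = ((∑ a, ‖v a‖ ^ 2 : ℝ) : ℂ) := by
    simp only [dotProduct, Pi.star_apply]
    push_cast
    refine Finset.sum_congr rfl fun a _ => ?_
    exact Complex.conj_mul' _
  rw [h3, h4] at h2
  exact_mod_cast h2

lemma fro_rot (O : Matrix (Fin m) (Fin m) ℂ) (hO : Oᴴ * O = 1)
    (B : Fin m → Matrix (Fin n) (Fin n) ℂ) :
    ∑ a, fro (rot O B a) = ∑ a, fro (B a) := by
  unfold fro
  rw [Finset.sum_comm]
  rw [Finset.sum_comm (s := Finset.univ) (t := Finset.univ) (f := fun a i => ∑ j, ‖B a i j‖ ^ 2)]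
  apply Finset.sum_congr rfl
  intro i _
  rw [Finset.sum_comm]
  rw [Finset.sum_comm (s := Finset.univ) (t := Finset.univ) (f := fun a j => ‖B a i j‖ ^ 2)]
  apply Finset.sum_congr rfl
  intro j _
  rw [← vec_rot O hO (fun b => B b i j)]
  apply Finset.sum_congr rfl
  intro a _
  congr 2
  simp [rot, Matrix.sum_apply]

lemma com_rot_right (O : Matrix (Fin m) (Fin m) ℂ) (B : Fin m → Matrix (Fin n) (Fin n) ℂ)
    (A : Matrix (Fin n) (Fin n) ℂ) (a : Fin m) :
    com A (rot O B a) = rot O (fun b => com A (B b)) a := by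
  unfold com rot
  simp only [Finset.mul_sum, Finset.sum_mul, smul_sub, Finset.sum_sub_distrib,
    Matrix.mul_smul, Matrix.smul_mul]

lemma com_rot_left (O : Matrix (Fin m) (Fin m) ℂ) (B : Fin m → Matrix (Fin n) (Fin n) ℂ)
    (A : Matrix (Fin n) (Fin n) ℂ) (a : Fin m) :
    com (rot O B a) A = rot O (fun b => com (B b) A) a := by
  unfold com rot
  simp only [Finset.mul_sum, Finset.sum_mul, smul_sub, Finset.sum_sub_distrib,
    Matrix.mul_smul, Matrix.smul_mul]

lemma fro_com_rot2 {k : ℕ} (O : Matrix (Fin m) (Fin m) ℂ) (hO : Oᴴ * O = 1)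
    (O' : Matrix (Fin k) (Fin k) ℂ) (hO' : O'ᴴ * O' = 1)
    (A : Fin m → Matrix (Fin n) (Fin n) ℂ) (B : Fin k → Matrix (Fin n) (Fin n) ℂ) :
    ∑ a, ∑ b, fro (com (rot O A a) (rot O' B b)) = ∑ a, ∑ b, fro (com (A a) (B b)) := by
  have h1 : ∀ a, ∑ b, fro (com (rot O A a) (rot O' B b)) = ∑ b, fro (com (rot O A a) (B b)) := by
    intro a
    simp only [com_rot_right O' B (rot O A a)]
    exact fro_rot O' hO' _
  simp only [h1]
  rw [Finset.sum_comm]
  rw [Finset.sum_comm (s := Finset.univ) (t := Finset.univ) (f := fun a b => fro (com (A a) (B b)))]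
  apply Finset.sum_congr rfl
  intro b _
  simp only [com_rot_left O A (B b)]
  exact fro_rot O hO _

lemma trace_rot1 (O : Matrix (Fin m) (Fin m) ℂ) (B : Fin m → Matrix (Fin n) (Fin n) ℂ)
    (C : Matrix (Fin n) (Fin n) ℂ) (h : ∀ a, trace (B a * C) = 0) (a : Fin m) :
    trace (rot O B a * C) = 0 := by
  unfold rot
  rw [Finset.sum_mul, Matrix.trace_sum]
  apply Finset.sum_eq_zero
  intro b _
  rw [Matrix.smul_mul, Matrix.trace_smul, h b, smul_zero]

lemma trace_rot2 (O : Matrix (Fin m) (Fin m) ℂ) (B : Fin m → Matrix (Fin n) (Fin n) ℂ)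
    (C : Matrix (Fin n) (Fin n) ℂ) (h : ∀ a, trace (C * B a) = 0) (a : Fin m) :
    trace (C * rot O B a) = 0 := by
  unfold rot
  rw [Finset.mul_sum, Matrix.trace_sum]
  apply Finset.sum_eq_zero
  intro b _
  rw [Matrix.mul_smul, Matrix.trace_smul, h b, smul_zero]

/-- isotropy `tr (B_a [A_c, B_b]) = 0` is kept by mixing both families -/
lemma iso_rot2 {k : ℕ} (O : Matrix (Fin m) (Fin m) ℂ) (O' : Matrix (Fin k) (Fin k) ℂ)
    (A : Fin m → Matrix (Fin n) (Fin n) ℂ) (B : Fin k → Matrix (Fin n) (Fin n) ℂ)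
    (h : ∀ a b c, trace (B a * com (A c) (B b)) = 0) (a : Fin k) (b : Fin k) (c : Fin m) :
    trace (rot O' B a * com (rot O A c) (rot O' B b)) = 0 := by
  rw [com_rot_right]
  apply trace_rot2
  intro b
  rw [com_rot_left]
  apply trace_rot2
  intro c
  apply trace_rot1
  intro a
  exact h a b c

/-- complex Frobenius inner product -/
noncomputable def ip (A B : Matrix (Fin n) (Fin n) ℂ) : ℂ := trace (A * Bᴴ)

lemma ip_star (A B : Matrix (Fin n) (Fin n) ℂ) : star (ip A B) = ip B A := by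
  unfold ip
  rw [← Matrix.trace_conjTranspose, conjTranspose_mul, conjTranspose_conjTranspose]

lemma ip_rot_left (O : Matrix (Fin m) (Fin m) ℂ) (B : Fin m → Matrix (Fin n) (Fin n) ℂ)
    (C : Matrix (Fin n) (Fin n) ℂ) (a : Fin m) :
    ip (rot O B a) C = ∑ b, O a b * ip (B b) C := by
  unfold ip rot
  rw [Finset.sum_mul, Matrix.trace_sum]
  refine Finset.sum_congr rfl fun b _ => ?_
  rw [Matrix.smul_mul, Matrix.trace_smul, smul_eq_mul]

lemma ip_rot_right (O : Matrix (Fin m) (Fin m) ℂ) (B : Fin m → Matrix (Fin n) (Fin n) ℂ)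
    (C : Matrix (Fin n) (Fin n) ℂ) (a : Fin m) :
    ip C (rot O B a) = ∑ b, star (O a b) * ip C (B b) := by
  rw [← ip_star, ip_rot_left, star_sum]
  refine Finset.sum_congr rfl fun b _ => ?_
  rw [star_mul', ip_star]

/-- existence of the mixing -/
lemma exists_rot (B : Fin m → Matrix (Fin n) (Fin n) ℂ) :
    ∃ O : Matrix (Fin m) (Fin m) ℂ, Oᴴ * O = 1 ∧
      ∀ a b, a ≠ b → ip (rot O B a) (rot O B b) = 0 := by
  let G : Matrix (Fin m) (Fin m) ℂ := Matrix.of (fun a b => ip (B a) (B b))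
  have hG : G.IsHermitian := by
    ext a b
    simp only [G, Matrix.conjTranspose_apply, Matrix.of_apply]
    exact ip_star _ _
  let U : Matrix (Fin m) (Fin m) ℂ := (hG.eigenvectorUnitary : Matrix (Fin m) (Fin m) ℂ)
  have hU1 : Uᴴ * U = 1 := by
    have := hG.eigenvectorUnitary.2
    rw [Matrix.mem_unitaryGroup_iff'] at this
    simpa [U, Matrix.star_eq_conjTranspose] using this
  have hU2 : U * Uᴴ = 1 := by
    have := hG.eigenvectorUnitary.2
    rw [Matrix.mem_unitaryGroup_iff] at this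
    simpa [U, Matrix.star_eq_conjTranspose] using this
  have hs : G = U * diagonal (RCLike.ofReal ∘ hG.eigenvalues) * Uᴴ := by
    have h := hG.spectral_theorem
    rw [Unitary.conjStarAlgAut_apply] at h
    exact h
  refine ⟨Uᴴ, ?_, ?_⟩
  · rw [Matrix.conjTranspose_conjTranspose]; exact hU2
  · intro a b hab
    have h1 : ip (rot Uᴴ B a) (rot Uᴴ B b) = (Uᴴ * G * U) a b := by
      rw [ip_rot_left]
      simp only [Matrix.mul_apply, Finset.sum_mul]
      rw [Finset.sum_comm]
      apply Finset.sum_congr rfl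
      intro c _
      rw [ip_rot_right, Finset.mul_sum]
      apply Finset.sum_congr rfl
      intro d _
      simp only [G, Matrix.of_apply, Matrix.conjTranspose_apply, star_star]
      ring
    rw [h1]
    have h3 : Uᴴ * G * U = diagonal (RCLike.ofReal ∘ hG.eigenvalues) := by
      calc Uᴴ * G * U = Uᴴ * (U * diagonal (RCLike.ofReal ∘ hG.eigenvalues) * Uᴴ) * U := by
            exact congrArg (fun X => Uᴴ * X * U) hs
        _ = (Uᴴ * U) * diagonal (RCLike.ofReal ∘ hG.eigenvalues) * (Uᴴ * U) := by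
            simp only [Matrix.mul_assoc]
        _ = diagonal (RCLike.ofReal ∘ hG.eigenvalues) := by
            rw [hU1, Matrix.one_mul, Matrix.mul_one]
    rw [h3, Matrix.diagonal_apply_ne _ hab]

lemma ip_self (A : Matrix (Fin n) (Fin n) ℂ) : ip A A = ((fro A : ℝ) : ℂ) := by
  unfold ip fro
  simp only [Matrix.trace, Matrix.diag, Matrix.mul_apply, Matrix.conjTranspose_apply]
  push_cast
  refine Finset.sum_congr rfl fun i _ => Finset.sum_congr rfl fun j _ => ?_
  exact Complex.mul_conj' _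

lemma fro_nonneg (A : Matrix (Fin n) (Fin n) ℂ) : 0 ≤ fro A := by
  unfold fro
  exact Finset.sum_nonneg fun i _ => Finset.sum_nonneg fun j _ => sq_nonneg _

lemma fro_eq_zero {A : Matrix (Fin n) (Fin n) ℂ} (h : fro A = 0) : A = 0 := by
  unfold fro at h
  ext i j
  have h1 : ∀ i ∈ (Finset.univ : Finset (Fin n)), ∑ j, ‖A i j‖ ^ 2 = 0 :=
    (Finset.sum_eq_zero_iff_of_nonneg
      (fun (i : Fin n) _ => Finset.sum_nonneg fun (j : Fin n) _ => sq_nonneg ‖A i j‖)).mp h
  have h2 : ∀ j ∈ (Finset.univ : Finset (Fin n)), ‖A i j‖ ^ 2 = 0 :=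
    (Finset.sum_eq_zero_iff_of_nonneg
      (fun (j : Fin n) _ => sq_nonneg ‖A i j‖)).mp (h1 i (Finset.mem_univ i))
  simpa using h2 j (Finset.mem_univ j)

lemma ip_smul_left (t : ℂ) (A B : Matrix (Fin n) (Fin n) ℂ) : ip (t • A) B = t * ip A B := by
  unfold ip
  rw [Matrix.smul_mul, Matrix.trace_smul, smul_eq_mul]

lemma ip_smul_right (t : ℂ) (A B : Matrix (Fin n) (Fin n) ℂ) :
    ip A (t • B) = star t * ip A B := by
  rw [← ip_star, ip_smul_left, star_mul', ip_star]

lemma fro_smul (t : ℂ) (A : Matrix (Fin n) (Fin n) ℂ) : fro (t • A) = ‖t‖ ^ 2 * fro A := by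
  unfold fro
  simp only [Matrix.smul_apply, smul_eq_mul, norm_mul, mul_pow, Finset.mul_sum]

lemma com_smul (s t : ℂ) (A B : Matrix (Fin n) (Fin n) ℂ) :
    com (s • A) (t • B) = (s * t) • com A B := by
  unfold com
  simp only [Matrix.smul_mul, Matrix.mul_smul, smul_smul, smul_sub, mul_comm t s]

/-- The complex Lu-Wenzel inequality. -/
theorem ddvvC (B : Fin m → Matrix (Fin n) (Fin n) ℂ)
    (hB : ∀ a b c, trace (B a * com (B c) (B b)) = 0) :
    ∑ a, ∑ b, fro (com (B a) (B b)) ≤ (∑ a, fro (B a)) ^ 2 := by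
  have hI : S_ISO := iso
  obtain ⟨O, hO, hort⟩ := exists_rot B
  rw [← fro_com_rot2 O hO O hO B B, ← fro_rot O hO B]
  have hiso : ∀ a b c, trace (rot O B a * com (rot O B c) (rot O B b)) = 0 :=
    iso_rot2 O O B B (fun a b c => hB a b c)
  generalize rot O B = C at *
  let x : Fin m → ℝ := fun a => fro (C a)
  let D : Fin m → Matrix (Fin n) (Fin n) ℂ := fun a => (((Real.sqrt (x a))⁻¹ : ℝ) : ℂ) • C a
  have hx0 : ∀ a, 0 ≤ x a := fun a => fro_nonneg _
  have hC0 : ∀ a, x a = 0 → C a = 0 := fun a h => fro_eq_zero h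
  have hxD : ∀ a, C a = ((Real.sqrt (x a) : ℝ) : ℂ) • D a := by
    intro a
    by_cases h : x a = 0
    · rw [h, hC0 a h]; simp
    · have h1 : Real.sqrt (x a) ≠ 0 := by
        intro h2
        exact h ((Real.sqrt_eq_zero (hx0 a)).mp h2)
      simp only [D, smul_smul]
      rw [← Complex.ofReal_mul, mul_inv_cancel₀ h1, Complex.ofReal_one, one_smul]
  have hD0 : ∀ a, x a = 0 → D a = 0 := by
    intro a h
    simp only [D]
    rw [hC0 a h, smul_zero]
  have hD1 : ∀ a, x a ≠ 0 → fro (D a) = 1 := by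
    intro a h
    simp only [D]
    rw [fro_smul, Complex.norm_real, Real.norm_eq_abs, sq_abs, inv_pow, Real.sq_sqrt (hx0 a)]
    exact inv_mul_cancel₀ h
  have hDort : ∀ a b, a ≠ b → ip (D a) (D b) = 0 := by
    intro a b hab
    simp only [D]
    rw [ip_smul_left, ip_smul_right, hort a b hab]; ring
  have hDiso : ∀ a b c, trace (D a * com (D c) (D b)) = 0 := by
    intro a b c
    simp only [D]
    rw [com_smul, Matrix.smul_mul, Matrix.mul_smul, Matrix.trace_smul, Matrix.trace_smul, hiso a b c]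
    simp
  let c : Fin m → Fin m → ℝ := fun a b => fro (com (D a) (D b))
  have hcc : ∀ a b, fro (com (C a) (C b)) = x a * x b * c a b := by
    intro a b
    rw [hxD a, hxD b, com_smul, fro_smul, norm_mul, Complex.norm_real, Complex.norm_real,
      Real.norm_eq_abs, Real.norm_eq_abs, mul_pow, sq_abs, sq_abs, Real.sq_sqrt (hx0 a),
      Real.sq_sqrt (hx0 b)]
  simp only [hcc]
  apply Pool.Agent.W250.LW.scal x c hx0
  · intro a
    simp [c, com, fro]
  · intro a b
    have h1 : com (D b) (D a) = (-1 : ℂ) • com (D a) (D b) := by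
      unfold com
      simp
    simp only [c]
    rw [h1, fro_smul]; simp
  · intro a
    let S : Finset (Fin m) := Finset.univ.filter (fun b => 1 < c a b)
    have h1 : ∑ b, max 0 (c a b - 1) = ∑ b ∈ S, (c a b - 1) := by
      rw [Finset.sum_filter]
      apply Finset.sum_congr rfl
      intro b _
      split_ifs with h
      · exact max_eq_right (by linarith)
      · exact max_eq_left (by linarith)
    rw [h1]
    have h2 : ∀ b ∈ S, x b ≠ 0 := by
      intro b hb h
      have h3 : 1 < c a b := by simpa [S] using hb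
      have h4 : c a b = 0 := by
        simp [c, hD0 b h, com, fro]
      linarith
    exact Pool.Agent.W250.LW.ebound hI (D a) D (by
      by_cases h : x a = 0
      · rw [hD0 a h]; simp [fro]
      · exact le_of_eq (hD1 a h)) S (by
      intro b hb b' hb'
      by_cases hbb : b = b'
      · subst hbb
        have := ip_self (D b)
        rw [hD1 b (h2 b hb)] at this
        simpa [ip] using this
      · have := hDort b b' hbb
        simpa [ip, hbb] using this) (by
      intro b b'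
      exact hDiso _ _ _)

end Pool.Agent.LW5A
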